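import Pool.Agent.Helper20.EX3.Statements

/-!
# MP_2857a5_co : module DEV (types of all the vertices, single arcs balancing the types)
-/

set_option autoImplicit false

open Finset
open scoped Classical

namespace OT

noncomputable section

section DEV

variable {V : Type} [Fintype V]

theorem dev_adjN_rev (D : V → V → Prop) (b : Bool) (u : V) :
    adjN (rev D) b u = adjN D (!b) u := by
  ext v; cases b <;> simp [adjN, Adj, rev]

theorem dev_card_bool (i : V → Bool) (b : Bool) :
    (univ.filter fun v => i v = b).card + (univ.filter fun v => i v = !b).card =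
      Fintype.card V := by
  have h := Finset.card_filter_add_card_filter_not (s := (univ : Finset V)) (fun v => i v = b)
  have h2 : (univ.filter fun v => i v = !b) = univ.filter fun v => ¬ i v = b := by
    apply Finset.filter_congr; intro v _
    cases b <;> cases (i v) <;> simp
  rw [h2, h, Finset.card_univ]

/-- Changing a Boolean function in order to balance it. -/
theorem dev_balance (A : Bool → V → Prop) (i0 : V → Bool) (x : ℝ) (hx : 0 ≤ x)
    (h0 : ∀ v, A (i0 v) v)
    (hc : ∀ b, ((univ.filter fun v => i0 v = b).card : ℝ) ≤ (Fintype.card V : ℝ) / 2 + x) :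
    ∃ i : V → Bool, (∀ v, A (i v) v) ∧ ((univ.filter fun v => i v ≠ i0 v).card : ℝ) ≤ x ∧
      (∀ b, ((univ.filter fun v => i v = b).card : ℝ) ≤ (Fintype.card V : ℝ) / 2 + x) ∧
      ∀ b, (Fintype.card V : ℝ) / 2 + 1 ≤ ((univ.filter fun v => i v = b).card : ℝ) →
        ∀ v, i v = b → ¬ A (!b) v := by
  by_cases hb : ∃ b, (Fintype.card V : ℝ) / 2 + 1 ≤ ((univ.filter fun v => i0 v = b).card : ℝ)
  · obtain ⟨b, hb⟩ := hb
    set n := Fintype.card V with hn
    set c := (univ.filter fun v => i0 v = b).card with hcdef
    set S := univ.filter fun v => i0 v = b ∧ A (!b) v with hS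
    have hbn : n + 2 ≤ 2 * c := by
      have : ((n : ℝ) + 2) ≤ 2 * (c : ℝ) := by linarith
      exact_mod_cast this
    set m := min S.card ((2 * c - n) / 2) with hm
    obtain ⟨S', hS'S, hS'c⟩ := Finset.exists_subset_card_eq (s := S) (n := m) (min_le_left _ _)
    have hmx : 2 * m + n ≤ 2 * c := by
      have : m ≤ (2 * c - n) / 2 := min_le_right _ _
      omega
    have hmx' : (m : ℝ) ≤ x := by
      have h1 : 2 * (m : ℝ) + n ≤ 2 * c := by exact_mod_cast hmx
      have h2 := hc b
      rw [← hcdef] at h2
      linarith
    refine ⟨fun v => if v ∈ S' then !b else i0 v, ?_, ?_, ?_, ?_⟩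
    · intro v
      by_cases hv : v ∈ S'
      · have := hS'S hv
        rw [hS, mem_filter] at this
        simpa [hv] using this.2.2
      · simpa [hv] using h0 v
    · have : (univ.filter fun v => (if v ∈ S' then !b else i0 v) ≠ i0 v) ⊆ S' := by
        intro v hv
        rw [mem_filter] at hv
        by_contra hh
        exact hv.2 (by simp [hh])
      have := Finset.card_le_card this
      have h3 : ((univ.filter fun v => (if v ∈ S' then !b else i0 v) ≠ i0 v).card : ℝ) ≤ S'.card := by
        exact_mod_cast this
      rw [hS'c] at h3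
      linarith
    · have hE : (univ.filter fun v => (if v ∈ S' then !b else i0 v) = b) =
          (univ.filter fun v => i0 v = b) \ S' := by
        ext v
        simp only [mem_filter, mem_univ, true_and, mem_sdiff]
        by_cases hv : v ∈ S' <;> simp [hv]
      have hcb : (univ.filter fun v => (if v ∈ S' then !b else i0 v) = b).card = c - m := by
        rw [hE, Finset.card_sdiff_of_subset, hS'c]
        intro v hv
        have := hS'S hv
        rw [hS, mem_filter] at this
        rw [mem_filter]; exact ⟨mem_univ _, this.2.1⟩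
      have htot := dev_card_bool (fun v => if v ∈ S' then !b else i0 v) b
      intro b'
      by_cases hb' : b' = b
      · subst hb'
        have h1 := hc b'
        rw [hcb]
        have : ((c - m : ℕ) : ℝ) ≤ c := by exact_mod_cast Nat.sub_le _ _
        linarith
      · have : b' = !b := by cases b' <;> cases b <;> simp_all
        subst this
        simp only [] at htot hcb ⊢
        have h2 : (univ.filter fun v => (if v ∈ S' then !b else i0 v) = !b).card =
            n - (c - m) := by omega
        rw [h2]
        have h3 : 2 * (n - (c - m)) ≤ n := by omega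
        have h4 : 2 * ((n - (c - m) : ℕ) : ℝ) ≤ n := by exact_mod_cast h3
        linarith
    · have hE : (univ.filter fun v => (if v ∈ S' then !b else i0 v) = b) =
          (univ.filter fun v => i0 v = b) \ S' := by
        ext v
        simp only [mem_filter, mem_univ, true_and, mem_sdiff]
        by_cases hv : v ∈ S' <;> simp [hv]
      have hcb : (univ.filter fun v => (if v ∈ S' then !b else i0 v) = b).card = c - m := by
        rw [hE, Finset.card_sdiff_of_subset, hS'c]
        intro v hv
        have := hS'S hv
        rw [hS, mem_filter] at this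
        rw [mem_filter]; exact ⟨mem_univ _, this.2.1⟩
      have htot := dev_card_bool (fun v => if v ∈ S' then !b else i0 v) b
      intro b' hb'1 v hv hA
      by_cases hb' : b' = b
      · subst hb'
        rw [hcb] at hb'1
        have h1 : n + 2 ≤ 2 * (c - m) := by
          have : ((n : ℝ) + 2) ≤ 2 * ((c - m : ℕ) : ℝ) := by linarith
          exact_mod_cast this
        have h2 : m = S.card := by
          rcases min_choice S.card ((2 * c - n) / 2) with h | h
          · rw [hm, h]
          · exfalso
            rw [← hm] at h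
            omega
        have h3 : S' = S := Finset.eq_of_subset_of_card_le hS'S (by rw [hS'c, h2])
        by_cases hvS : v ∈ S'
        · simp [hvS] at hv
        · simp only [hvS, if_false] at hv
          apply hvS
          rw [h3, hS, mem_filter]
          exact ⟨mem_univ _, hv, hA⟩
      · have : b' = !b := by cases b' <;> cases b <;> simp_all
        subst this
        simp only [] at htot hcb hb'1
        have h2 : (univ.filter fun v => (if v ∈ S' then !b else i0 v) = !b).card =
            n - (c - m) := by omega
        rw [h2] at hb'1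
        have h3 : 2 * (n - (c - m)) ≤ n := by omega
        have h4 : 2 * ((n - (c - m) : ℕ) : ℝ) ≤ n := by exact_mod_cast h3
        linarith
  · push Not at hb
    refine ⟨i0, h0, by simpa using hx, hc, fun b hb' => absurd hb' (not_le.mpr (hb b))⟩

theorem dev_sum4 (f : Bool × Bool → ℕ) :
    ∑ k, f k = f (true, true) + f (true, false) + f (false, true) + f (false, false) := by
  rw [Fintype.sum_prod_type]
  simp only [Fintype.sum_bool]
  ring

theorem dev_cover {D : V → V → Prop} {W : Bool × Bool → Finset V} {δ : ℝ} (hT : Typ D W δ) :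
    (univ.filter fun v => Exc W v).card + ∑ k, (W k).card = Fintype.card V := by
  have h1 : (univ.biUnion W).card = ∑ k, (W k).card := by
    apply Finset.card_biUnion
    intro k _ l _ hkl
    exact hT.disj k l hkl
  have h2 := Finset.card_filter_add_card_filter_not (s := (univ : Finset V)) (fun v => Exc W v)
  have h3 : (univ.filter fun v => ¬ Exc W v) = univ.biUnion W := by
    ext v
    simp only [mem_filter, mem_univ, true_and, mem_biUnion]
    unfold Exc
    push Not
    rfl
  rw [h3, h1, Finset.card_univ] at h2
  exact h2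

theorem dev_exc {D : V → V → Prop} {W : Bool × Bool → Finset V} {δ : ℝ} (hT : Typ D W δ) :
    ((univ.filter fun v => Exc W v).card : ℝ) ≤ 2 * δ * (Fintype.card V : ℝ) := by
  have h1 := dev_cover hT
  rw [dev_sum4] at h1
  have h2 := hT.inB true
  have h3 := hT.inB false
  have h4 : ((univ.filter fun v => Exc W v).card : ℝ) + ((W (true, true)).card +
    (W (true, false)).card + (W (false, true)).card + (W (false, false)).card) =
      Fintype.card V := by exact_mod_cast h1
  linarith

theorem dev_typ_swap {D : V → V → Prop} {W : Bool × Bool → Finset V} {δ : ℝ} (hT : Typ D W δ) :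
    Typ (rev D) (fun k => W (k.2, k.1)) δ where
  disj k l hkl := hT.disj _ _ (fun h => hkl (by
    cases k; cases l; simp only [Prod.mk.injEq] at h ⊢; exact ⟨h.2, h.1⟩))
  out k l hkl w hw := by
    rw [dev_adjN_rev]
    exact hT.inn (l.2, l.1) (k.2, k.1) hkl.symm w hw
  inn k l hkl w hw := by
    rw [dev_adjN_rev]
    exact hT.out (l.2, l.1) (k.2, k.1) hkl.symm w hw
  inB b := hT.outB b
  outB b := hT.inB b

theorem dev_semi_rev {D : V → V → Prop} {L : ℝ} (h : SemiDeg D L) : SemiDeg (rev D) L where
  irr v := h.irr v
  deg s u := by rw [dev_adjN_rev]; exact h.deg _ u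

theorem dev_types {D : V → V → Prop} {W : Bool × Bool → Finset V} {δ ρ L : ℝ}
    (hT : Typ D W δ) (hS : SemiDeg D L) (hL : 0 ≤ L) (hρ : ρ ≤ 1 / 100)
    (hδ0 : 0 ≤ δ) (hδ : δ ≤ ρ / 100) (hn : 0 < Fintype.card V) :
    ∃ i : V → Bool, (∀ v, ∃ k : Bool × Bool, k.2 = i v ∧ Opt D W ρ false k v) ∧
      ((univ.filter fun v => ∃ k, v ∈ W k ∧ i v ≠ k.1).card : ℝ) ≤
        δ * (Fintype.card V : ℝ) ∧
      (∀ b, ((univ.filter fun v => i v = b).card : ℝ) ≤
        (Fintype.card V : ℝ) / 2 + δ * (Fintype.card V : ℝ)) ∧
      ∀ b, (Fintype.card V : ℝ) / 2 + 1 ≤ ((univ.filter fun v => i v = b).card : ℝ) →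
        ∀ v, i v = b → ∀ k : Bool × Bool, k.2 = (!b) → ¬ Opt D W ρ false k v := by
  have hn' : (0 : ℝ) < Fintype.card V := by exact_mod_cast hn
  have hexc := dev_exc hT
  -- every vertex has an option
  have hopt : ∀ v, ∃ k, Opt D W ρ false k v := by
    intro v
    by_contra hh
    push Not at hh
    have h1 := hS.deg false v
    have h2 : (adjN D false v).card ≤ (univ.filter fun v => Exc W v).card +
        ∑ k, (W k ∩ adjN D false v).card := by
      have hsub : adjN D false v ⊆ (univ.filter fun v => Exc W v) ∪
          univ.biUnion fun k => W k ∩ adjN D false v := by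
        intro w hw
        by_cases hE : Exc W w
        · exact mem_union_left _ (by simp [hE])
        · unfold Exc at hE
          push Not at hE
          obtain ⟨k, hk⟩ := hE
          exact mem_union_right _ (mem_biUnion.mpr ⟨k, mem_univ _, mem_inter.mpr ⟨hk, hw⟩⟩)
      exact (Finset.card_le_card hsub).trans ((Finset.card_union_le _ _).trans
        (Nat.add_le_add_left Finset.card_biUnion_le _))
    rw [dev_sum4] at h2
    have h3 : ((adjN D false v).card : ℝ) ≤ (univ.filter fun v => Exc W v).card +
        ((W (true, true) ∩ adjN D false v).card + (W (true, false) ∩ adjN D false v).card +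
        (W (false, true) ∩ adjN D false v).card + (W (false, false) ∩ adjN D false v).card) := by
      exact_mod_cast h2
    have e1 := hh (true, true)
    have e2 := hh (true, false)
    have e3 := hh (false, true)
    have e4 := hh (false, false)
    unfold Opt at e1 e2 e3 e4
    push Not at e1 e2 e3 e4
    nlinarith
  have hmem : ∀ k, ∀ v ∈ W k, ∃ k' : Bool × Bool, k'.2 = k.1 ∧ Opt D W ρ false k' v := by
    intro k v hv
    by_contra hh
    push Not at hh
    have h1 := hh (true, k.1) rfl
    have h2 := hh (false, k.1) rfl
    unfold Opt at h1 h2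
    push Not at h1 h2
    have h3 := hT.inn (true, k.1) k rfl v hv
    have h4 := hT.inn (false, k.1) k rfl v hv
    have h5 := hT.outB k.1
    have h6 : ((W (true, k.1) ∩ adjN D false v).card : ℝ) +
        (W (true, k.1) \ adjN D false v).card = (W (true, k.1)).card := by
      exact_mod_cast Finset.card_inter_add_card_sdiff _ _
    have h7 : ((W (false, k.1) ∩ adjN D false v).card : ℝ) +
        (W (false, k.1) \ adjN D false v).card = (W (false, k.1)).card := by
      exact_mod_cast Finset.card_inter_add_card_sdiff _ _
    nlinarith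
  have hi0 : ∀ v, ∃ b, (∃ k : Bool × Bool, k.2 = b ∧ Opt D W ρ false k v) ∧
      ∀ k, v ∈ W k → k.1 = b := by
    intro v
    by_cases h : ∃ k, v ∈ W k
    · obtain ⟨k, hk⟩ := h
      refine ⟨k.1, hmem k v hk, ?_⟩
      intro k' hk'
      by_contra hne
      have hne' : k' ≠ k := fun h => hne (by rw [h])
      exact Finset.disjoint_left.mp (hT.disj k' k hne') hk' hk
    · push Not at h
      obtain ⟨k, hk⟩ := hopt v
      exact ⟨k.2, ⟨k, rfl, hk⟩, fun k' hk' => absurd hk' (h k')⟩
  choose i0 hi0A hi0W using hi0
  have hcnt : ∀ b, ((univ.filter fun v => i0 v = b).card : ℝ) ≤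
      (Fintype.card V : ℝ) / 2 + δ * (Fintype.card V : ℝ) := by
    intro b
    have h1 := dev_card_bool i0 b
    have h2 : (W (!b, true)).card + (W (!b, false)).card ≤
        (univ.filter fun v => i0 v = !b).card := by
      rw [← Finset.card_union_of_disjoint (hT.disj _ _ (by simp))]
      apply Finset.card_le_card
      intro v hv
      rw [mem_filter]
      refine ⟨mem_univ _, ?_⟩
      rcases mem_union.mp hv with h | h
      · exact (hi0W v _ h).symm
      · exact (hi0W v _ h).symm
    have h3 := hT.inB (!b)
    have h4 : ((W (!b, true)).card : ℝ) + (W (!b, false)).card ≤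
        (univ.filter fun v => i0 v = !b).card := by exact_mod_cast h2
    have h5 : ((univ.filter fun v => i0 v = b).card : ℝ) +
        (univ.filter fun v => i0 v = !b).card = Fintype.card V := by exact_mod_cast h1
    linarith
  obtain ⟨i, h1, h2, h3, h4⟩ := dev_balance
    (fun b v => ∃ k : Bool × Bool, k.2 = b ∧ Opt D W ρ false k v) i0
    (δ * (Fintype.card V : ℝ)) (by positivity) hi0A hcnt
  refine ⟨i, h1, ?_, h3, ?_⟩
  · refine le_trans ?_ h2
    have : (univ.filter fun v => ∃ k, v ∈ W k ∧ i v ≠ k.1) ⊆
        univ.filter fun v => i v ≠ i0 v := by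
      intro v hv
      rw [mem_filter] at hv ⊢
      obtain ⟨_, k, hk, hne⟩ := hv
      refine ⟨mem_univ _, ?_⟩
      rw [← hi0W v k hk]
      exact hne
    exact_mod_cast Finset.card_le_card this
  · intro b hb v hv k hk hO
    exact h4 b hb v hv ⟨k, hk, hO⟩

/-- The data after balancing. -/
structure DevH (D : V → V → Prop) (W : Bool × Bool → Finset V) (δ ρ L : ℝ) (i o : V → Bool) :
    Prop where
  sd : SemiDeg D L
  typ : Typ D W (10 * δ)
  mem : ∀ k, ∀ v ∈ W k, i v = k.1 ∧ o v = k.2
  inO : ∀ v, ∃ k : Bool × Bool, k.2 = i v ∧ Opt D W (ρ / 2) false k v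
  outO : ∀ v, ∃ k : Bool × Bool, k.1 = o v ∧ Opt D W (ρ / 2) true k v
  ci : ∀ b, ((univ.filter fun v => i v = b).card : ℝ) ≤
    (Fintype.card V : ℝ) / 2 + δ * (Fintype.card V : ℝ)
  co : ∀ b, ((univ.filter fun v => o v = b).card : ℝ) ≤
    (Fintype.card V : ℝ) / 2 + δ * (Fintype.card V : ℝ)
  mi : ∀ b, (Fintype.card V : ℝ) / 2 + 1 ≤ ((univ.filter fun v => i v = b).card : ℝ) →
    ∀ v, i v = b → ∀ k : Bool × Bool, k.2 = (!b) →
      ((W k ∩ adjN D false v).card : ℝ) ≤ ρ * (Fintype.card V : ℝ)
  mo : ∀ b, (Fintype.card V : ℝ) / 2 + 1 ≤ ((univ.filter fun v => o v = b).card : ℝ) →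
    ∀ v, o v = b → ∀ k : Bool × Bool, k.1 = (!b) →
      ((W k ∩ adjN D true v).card : ℝ) ≤ ρ * (Fintype.card V : ℝ)

/-- The conclusion. -/
def DevC (D : V → V → Prop) (W' : Bool × Bool → Finset V) (δ ρ : ℝ) : Prop :=
  ∃ (C Li Lo : Finset V) (k₁ k₂ : V → Bool × Bool) (lv : V → V),
    (∀ v, Exc W' v → v ∈ C) ∧ (C.card : ℝ) ≤ 50 * δ * (Fintype.card V : ℝ) ∧
    Li ⊆ C ∧ Lo ⊆ C ∧ Disjoint Li Lo ∧
    (∀ v ∈ C, v ∉ Li → Opt D W' (ρ / 2) false (k₁ v) v) ∧
    (∀ v ∈ C, v ∉ Lo → Opt D W' (ρ / 2) true (k₂ v) v) ∧
    (∀ v ∈ Li, lv v ∈ W' (k₁ v) ∧ D (lv v) v) ∧ (∀ v ∈ Lo, lv v ∈ W' (k₂ v) ∧ D v (lv v)) ∧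
    (∀ v ∈ Li ∪ Lo, lv v ∉ C) ∧ Set.InjOn lv (Li ∪ Lo : Finset V) ∧
    (W' (false, true) \ C).card + (C.filter fun v => (k₁ v).2 = false ∧ (k₂ v).1 = true).card =
      (W' (true, false) \ C).card + (C.filter fun v => (k₁ v).2 = true ∧ (k₂ v).1 = false).card


/-- A family of disjoint arcs from the vertices of out-type `false` to vertices of in-type
`true`. -/
def DevFam (D : V → V → Prop) (W : Bool × Bool → Finset V) (i : V → Bool) (F : Finset (V × V)) :
    Prop :=
  (∀ a ∈ F, a.1 ∈ W (true, false) ∪ W (false, false) ∧ D a.1 a.2 ∧ i a.2 = true) ∧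
  (∀ a ∈ F, ∀ b ∈ F, a ≠ b → a.1 ≠ b.1 ∧ a.2 ≠ b.2) ∧ ∀ a ∈ F, ∀ b ∈ F, a.1 ≠ b.2

theorem dev_family {D : V → V → Prop} {W : Bool × Bool → Finset V} {δ ρ L : ℝ} {i o : V → Bool}
    (H : DevH D W δ ρ L i o) (hL : 1 ≤ L) (hρ0 : 0 < ρ) (hρ : ρ ≤ 1 / 100) (hδ0 : 0 ≤ δ)
    (hδ : δ ≤ 1 / 10000) (hn : 0 < Fintype.card V)
    (he : Fintype.card V ≤
      (univ.filter fun v => i v = true).card + (univ.filter fun v => o v = false).card)
    (hPQ : (univ.filter fun v => o v = false).card ≤ (univ.filter fun v => i v = true).card) :
    ∃ F : Finset (V × V), DevFam D W i F ∧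
      F.card = (univ.filter fun v => i v = true).card +
        (univ.filter fun v => o v = false).card - Fintype.card V := by
  set n := Fintype.card V with hndef
  set P := (univ.filter fun v => i v = true).card with hP
  set Q := (univ.filter fun v => o v = false).card with hQ
  have hn' : (0 : ℝ) < n := by exact_mod_cast hn
  obtain ⟨F, hF, hmax⟩ := Finset.exists_max_image
    (univ.filter fun F : Finset (V × V) => DevFam D W i F) Finset.card
    ⟨∅, by rw [mem_filter]; exact ⟨mem_univ _, by simp [DevFam]⟩⟩
  rw [mem_filter] at hF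
  have hF := hF.2
  have key : P + Q - n ≤ F.card := by
    by_contra hlt
    push Not at hlt
    set m := F.card with hm
    set U := F.image Prod.fst ∪ F.image Prod.snd with hU
    have hUc : U.card ≤ 2 * m := by
      calc U.card ≤ (F.image Prod.fst).card + (F.image Prod.snd).card := card_union_le _ _
        _ ≤ F.card + F.card := Nat.add_le_add card_image_le card_image_le
        _ = 2 * m := by ring
    set T := W (true, false) ∪ W (false, false) with hT
    -- arcs from tails outside `U` end in `U`
    have hclosed : ∀ s ∈ T, s ∉ U → ∀ t, D s t → i t = true → t ∈ U := by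
      intro s hs hsU t hst hit
      by_contra htU
      have hst' : s ≠ t := fun h => H.sd.irr s (by rw [← h] at hst; exact hst)
      have hsF : ∀ a ∈ F, a.1 ≠ s ∧ a.2 ≠ s := by
        intro a ha
        refine ⟨fun h => hsU ?_, fun h => hsU ?_⟩
        · exact mem_union_left _ (mem_image.mpr ⟨a, ha, h⟩)
        · exact mem_union_right _ (mem_image.mpr ⟨a, ha, h⟩)
      have htF : ∀ a ∈ F, a.1 ≠ t ∧ a.2 ≠ t := by
        intro a ha
        refine ⟨fun h => htU ?_, fun h => htU ?_⟩
        · exact mem_union_left _ (mem_image.mpr ⟨a, ha, h⟩)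
        · exact mem_union_right _ (mem_image.mpr ⟨a, ha, h⟩)
      have hnot : (s, t) ∉ F := fun h => (hsF _ h).1 rfl
      have hfam : DevFam D W i (insert (s, t) F) := by
        refine ⟨?_, ?_, ?_⟩
        · intro a ha
          rcases mem_insert.mp ha with rfl | ha
          · exact ⟨hs, hst, hit⟩
          · exact hF.1 a ha
        · intro a ha b hb hab
          rcases mem_insert.mp ha with rfl | ha <;> rcases mem_insert.mp hb with rfl | hb
          · exact absurd rfl hab
          · exact ⟨fun h => (hsF b hb).1 h.symm, fun h => (htF b hb).2 h.symm⟩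
          · exact ⟨(hsF a ha).1, (htF a ha).2⟩
          · exact hF.2.1 a ha b hb hab
        · intro a ha b hb
          rcases mem_insert.mp ha with rfl | ha <;> rcases mem_insert.mp hb with rfl | hb
          · exact hst'
          · exact fun h => (hsF b hb).2 h.symm
          · exact (htF a ha).1
          · exact hF.2.2 a ha b hb
      have := hmax _ (mem_filter.mpr ⟨mem_univ _, hfam⟩)
      rw [card_insert_of_notMem hnot] at this
      omega
    -- out-degree into the vertices of in-type `true`
    have hdeg : ∀ s, L + (P : ℝ) - (n : ℝ) / 2 ≤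
        (((adjN D true s).filter fun t => i t = true).card : ℝ) := by
      intro s
      have h1 := H.sd.deg true s
      have h2 := Finset.card_filter_add_card_filter_not (s := adjN D true s)
        (fun t => i t = true)
      have h3 : ((adjN D true s).filter fun t => ¬ i t = true).card ≤
          (univ.filter fun v => i v = false).card := by
        apply Finset.card_le_card
        intro v hv
        rw [mem_filter] at hv ⊢
        exact ⟨mem_univ _, by simpa using hv.2⟩
      have h4 := dev_card_bool i true
      simp only [Bool.not_true] at h4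
      have h2' : (((adjN D true s).filter fun t => i t = true).card : ℝ) +
          ((adjN D true s).filter fun t => ¬ i t = true).card = (adjN D true s).card := by
        exact_mod_cast h2
      have h3' : (((adjN D true s).filter fun t => ¬ i t = true).card : ℝ) ≤
          (univ.filter fun v => i v = false).card := by exact_mod_cast h3
      have h4' : (P : ℝ) + (univ.filter fun v => i v = false).card = n := by
        exact_mod_cast h4
      linarith
    have hTc : (1 / 2 - 10 * δ) * (n : ℝ) ≤ (T.card : ℝ) := by
      have h1 := H.typ.outB false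
      have h2 : T.card = (W (true, false)).card + (W (false, false)).card := by
        rw [hT, Finset.card_union_of_disjoint (H.typ.disj _ _ (by simp))]
      rw [h2]
      push_cast
      exact h1
    have he2 : P + Q - n ≤ 2 * P - n := by omega
    have hml : m + 1 ≤ 2 * P - n := by omega
    have hnP : n ≤ 2 * P := by omega
    have hml' : (m : ℝ) + 1 ≤ 2 * P - n := by
      have : m + 1 + n ≤ 2 * P := by omega
      have : (m : ℝ) + 1 + n ≤ 2 * P := by exact_mod_cast this
      linarith
    by_cases hP1 : (n : ℝ) / 2 + 1 ≤ (P : ℝ)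
    · -- double counting
      have hmi := H.mi true hP1
      have hci := H.ci true
      rw [← hP] at hci
      have hsum := Finset.sum_card_bipartiteAbove_eq_sum_card_bipartiteBelow
        (s := T \ U) (t := U) (fun s t => D s t ∧ i t = true)
      have hlow : ((T.card : ℝ) - 2 * m) * (L + (P : ℝ) - (n : ℝ) / 2) ≤
          ((∑ a ∈ T \ U, (U.bipartiteAbove (fun s t => D s t ∧ i t = true) a).card : ℕ) : ℝ) := by
        have h1 : ∀ a ∈ T \ U, L + (P : ℝ) - (n : ℝ) / 2 ≤
            ((U.bipartiteAbove (fun s t => D s t ∧ i t = true) a).card : ℝ) := by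
          intro a ha
          rw [mem_sdiff] at ha
          refine (hdeg a).trans ?_
          have : ((adjN D true a).filter fun t => i t = true) ⊆
              U.bipartiteAbove (fun s t => D s t ∧ i t = true) a := by
            intro t ht
            rw [mem_filter] at ht
            have hD : D a t := by simpa [adjN, Adj] using ht.1
            rw [mem_bipartiteAbove]
            exact ⟨hclosed a ha.1 ha.2 t hD ht.2, hD, ht.2⟩
          exact_mod_cast Finset.card_le_card this
        have h2 : ((T \ U).card : ℝ) * (L + (P : ℝ) - (n : ℝ) / 2) ≤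
            ((∑ a ∈ T \ U, (U.bipartiteAbove (fun s t => D s t ∧ i t = true) a).card : ℕ) : ℝ) := by
          push_cast
          have := Finset.card_nsmul_le_sum (T \ U)
            (fun a => ((U.bipartiteAbove (fun s t => D s t ∧ i t = true) a).card : ℝ)) _ h1
          rwa [nsmul_eq_mul] at this
        have h3 : (T.card : ℝ) - 2 * m ≤ ((T \ U).card : ℝ) := by
          have h4 : T.card ≤ (T \ U).card + U.card := by
            have := Finset.card_le_card_sdiff_add_card (s := T) (t := U)
            exact this
          have h5 : (T.card : ℝ) ≤ (T \ U).card + U.card := by exact_mod_cast h4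
          have h6 : (U.card : ℝ) ≤ 2 * m := by exact_mod_cast hUc
          linarith
        have h7 : 0 ≤ L + (P : ℝ) - (n : ℝ) / 2 := by linarith
        exact (mul_le_mul_of_nonneg_right h3 h7).trans h2
      have hup : ((∑ b ∈ U, ((T \ U).bipartiteBelow (fun s t => D s t ∧ i t = true) b).card : ℕ) : ℝ)
          ≤ (2 * m) * (2 * (ρ * n)) := by
        have h1 : ∀ b ∈ U, (((T \ U).bipartiteBelow (fun s t => D s t ∧ i t = true) b).card : ℝ) ≤
            2 * (ρ * n) := by
          intro b _
          by_cases hib : i b = true
          · have h2 := hmi b hib (true, false) rfl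
            have h3 := hmi b hib (false, false) rfl
            have h4 : (T \ U).bipartiteBelow (fun s t => D s t ∧ i t = true) b ⊆
                (W (true, false) ∩ adjN D false b) ∪ (W (false, false) ∩ adjN D false b) := by
              intro s hs
              rw [mem_bipartiteBelow, mem_sdiff] at hs
              have hD : s ∈ adjN D false b := by simpa [adjN, Adj] using hs.2.1
              rcases mem_union.mp hs.1.1 with h | h
              · exact mem_union_left _ (mem_inter.mpr ⟨h, hD⟩)
              · exact mem_union_right _ (mem_inter.mpr ⟨h, hD⟩)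
            have h5 := (Finset.card_le_card h4).trans (card_union_le _ _)
            have h6 : (((T \ U).bipartiteBelow (fun s t => D s t ∧ i t = true) b).card : ℝ) ≤
                (W (true, false) ∩ adjN D false b).card +
                  (W (false, false) ∩ adjN D false b).card := by exact_mod_cast h5
            linarith
          · have h4 : (T \ U).bipartiteBelow (fun s t => D s t ∧ i t = true) b = ∅ := by
              apply Finset.eq_empty_of_forall_notMem
              intro s hs
              rw [mem_bipartiteBelow] at hs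
              exact hib hs.2.2
            rw [h4]
            simp only [card_empty, Nat.cast_zero]
            positivity
        push_cast
        have h2 := Finset.sum_le_card_nsmul U
          (fun b => (((T \ U).bipartiteBelow (fun s t => D s t ∧ i t = true) b).card : ℝ)) _ h1
        rw [nsmul_eq_mul] at h2
        have h6 : (U.card : ℝ) ≤ 2 * m := by exact_mod_cast hUc
        have h7 : 0 ≤ 2 * (ρ * (n : ℝ)) := by positivity
        exact h2.trans (mul_le_mul_of_nonneg_right h6 h7)
      rw [← hsum] at hup
      have hfin := hlow.trans hup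
      -- contradiction
      set p : ℝ := (P : ℝ) - (n : ℝ) / 2 with hp
      have hp1 : 1 ≤ p := by rw [hp]; linarith
      have hpd : p ≤ δ * n := by rw [hp]; linarith
      have hm2 : 2 * (m : ℝ) ≤ 4 * p := by rw [hp]; linarith
      have hT4 : (n : ℝ) / 4 ≤ (T.card : ℝ) - 2 * m := by nlinarith
      have hl : (n : ℝ) / 4 * p ≤ ((T.card : ℝ) - 2 * m) * (L + (P : ℝ) - (n : ℝ) / 2) := by
        have : p ≤ L + (P : ℝ) - (n : ℝ) / 2 := by rw [hp]; linarith
        exact mul_le_mul hT4 this (by linarith) (by linarith)
      have hr : 2 * (m : ℝ) * (2 * (ρ * n)) ≤ 4 * p * (2 * (ρ * n)) :=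
        mul_le_mul_of_nonneg_right hm2 (by positivity)
      have hr2 : 4 * p * (2 * (ρ * n)) ≤ (8 / 100) * (p * n) := by
        have : ρ * (p * n) ≤ (1 / 100) * (p * n) :=
          mul_le_mul_of_nonneg_right hρ (by positivity)
        nlinarith
      have : 0 < p * n := by positivity
      nlinarith
    · -- one arc suffices
      push Not at hP1
      have hm0 : m = 0 := by
        have : (m : ℝ) < 1 := by linarith
        exact_mod_cast (Nat.lt_one_iff.mp (by exact_mod_cast this))
      have hU0 : U = ∅ := by
        rw [← Finset.card_eq_zero]; omega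
      have hTpos : 0 < T.card := by
        have : (0 : ℝ) < T.card := by nlinarith
        exact_mod_cast this
      obtain ⟨s, hs⟩ := Finset.card_pos.mp hTpos
      have h1 := hdeg s
      have h2 : ((adjN D true s).filter fun t => i t = true) = ∅ := by
        apply Finset.eq_empty_of_forall_notMem
        intro t ht
        rw [mem_filter] at ht
        have hD : D s t := by simpa [adjN, Adj] using ht.1
        have := hclosed s hs (by rw [hU0]; simp) t hD ht.2
        rw [hU0] at this
        simp at this
      rw [h2] at h1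
      simp only [card_empty, Nat.cast_zero] at h1
      have : (0 : ℝ) ≤ m := by positivity
      linarith
  obtain ⟨F', hF'F, hF'c⟩ := Finset.exists_subset_card_eq key
  refine ⟨F', ⟨fun a ha => hF.1 a (hF'F ha), fun a ha b hb => hF.2.1 a (hF'F ha) b (hF'F hb),
    fun a ha b hb => hF.2.2 a (hF'F ha) b (hF'F hb)⟩, hF'c⟩

theorem dev_core {D : V → V → Prop} {W : Bool × Bool → Finset V} {δ ρ L : ℝ} {i o : V → Bool}
    (H : DevH D W δ ρ L i o) (hL : 1 ≤ L) (hρ0 : 0 < ρ) (hρ : ρ ≤ 1 / 100) (hδ0 : 0 ≤ δ)
    (hδ : δ ≤ 1 / 10000) (hn : 0 < Fintype.card V)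
    (he : Fintype.card V ≤
      (univ.filter fun v => i v = true).card + (univ.filter fun v => o v = false).card)
    (hPQ : (univ.filter fun v => o v = false).card ≤ (univ.filter fun v => i v = true).card) :
    DevC D W δ ρ := by
  obtain ⟨F, hF, hFc⟩ := dev_family H hL hρ0 hρ hδ0 hδ hn he hPQ
  have hn' : (0 : ℝ) < Fintype.card V := by exact_mod_cast hn
  set heads := F.image Prod.snd with hheads
  have hhc : heads.card = F.card := by
    apply Finset.card_image_of_injOn
    intro a ha b hb hab
    by_contra hne
    exact (hF.2.1 a ha b hb hne).2 hab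
  have hex : ∀ t, ∃ s, t ∈ heads → (s, t) ∈ F := by
    intro t
    by_cases ht : t ∈ heads
    · obtain ⟨a, ha, rfl⟩ := mem_image.mp ht
      exact ⟨a.1, fun _ => ha⟩
    · exact ⟨t, fun h => absurd h ht⟩
  choose lv hlv using hex
  choose κ₁ hκ₁ hκ₁' using H.inO
  choose κ₂ hκ₂ hκ₂' using H.outO
  set E := univ.filter fun v => Exc W v with hE
  set C := E ∪ heads with hC
  have hnotC : ∀ v, v ∉ C → v ∈ W (i v, o v) ∧ v ∉ heads := by
    intro v hv
    rw [hC, mem_union, not_or, hE, mem_filter] at hv
    refine ⟨?_, hv.2⟩
    have h1 := hv.1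
    unfold Exc at h1
    push Not at h1
    obtain ⟨k, hk⟩ := h1 (mem_univ _)
    have h2 := H.mem k v hk
    rw [h2.1, h2.2]
    exact hk
  have hW_notE : ∀ k, ∀ v ∈ W k, v ∉ E := by
    intro k v hv h
    rw [hE, mem_filter] at h
    exact h.2 k hv
  set κ₁' : V → Bool × Bool := fun v => if v ∈ heads then (i (lv v), false) else κ₁ v with hκ
  have hlvW : ∀ v ∈ heads, lv v ∈ W (κ₁' v) := by
    intro v hv
    have h1 := hF.1 _ (hlv v hv)
    simp only [hκ, hv, if_true]
    rcases mem_union.mp h1.1 with h | h
    · have h2 := (H.mem _ _ h).1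
      simp only at h2 h
      rw [h2]; exact h
    · have h2 := (H.mem _ _ h).1
      simp only at h2 h
      rw [h2]; exact h
  have ht2 : ∀ v, (κ₁' v).2 = if v ∈ heads then false else i v := by
    intro v
    by_cases hv : v ∈ heads
    · simp [hκ, hv]
    · simp [hκ, hv, hκ₁]
  refine ⟨C, heads, ∅, κ₁', κ₂, lv, ?_, ?_, ?_, ?_, ?_, ?_, ?_, ?_, ?_, ?_, ?_, ?_⟩
  · intro v hv
    exact mem_union_left _ (mem_filter.mpr ⟨mem_univ _, hv⟩)
  · have h1 := dev_exc H.typ
    have h2 : (C.card : ℝ) ≤ E.card + heads.card := by exact_mod_cast card_union_le _ _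
    have h3 : heads.card + Fintype.card V ≤ 2 * (univ.filter fun v => i v = true).card := by
      rw [hhc, hFc]; omega
    have h4 : (heads.card : ℝ) + Fintype.card V ≤
        2 * (univ.filter fun v => i v = true).card := by exact_mod_cast h3
    have h5 := H.ci true
    rw [← hE] at h1
    nlinarith
  · exact subset_union_right
  · simp
  · simp
  · intro v _ hvh
    simp only [hκ, hvh, if_false]
    exact hκ₁' v
  · intro v _ _
    exact hκ₂' v
  · intro v hv
    exact ⟨hlvW v hv, (hF.1 _ (hlv v hv)).2.1⟩
  · simp
  · intro v hv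
    rw [union_empty] at hv
    rw [hC, mem_union, not_or]
    refine ⟨hW_notE _ _ (hlvW v hv), ?_⟩
    intro h
    obtain ⟨a, ha, hav⟩ := mem_image.mp h
    exact hF.2.2 _ (hlv v hv) a ha hav.symm
  · rw [union_empty]
    intro v hv w hw hvw
    by_contra hne
    have h1 := hF.2.1 _ (hlv v hv) _ (hlv w hw) (fun h => hne (Prod.mk.inj h).2)
    exact h1.1 hvw
  · -- the equation
    have hA : (W (false, true) \ C).card +
        (C.filter fun v => (κ₁' v).2 = false ∧ (κ₂ v).1 = true).card =
        (univ.filter fun v => (κ₁' v).2 = false ∧ o v = true).card := by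
      rw [← Finset.card_union_of_disjoint]
      · congr 1
        ext v
        simp only [mem_union, mem_sdiff, mem_filter, mem_univ, true_and]
        by_cases hv : v ∈ C
        · simp [hv, hκ₂ v]
        · have h1 := hnotC v hv
          simp only [hv, not_false_iff, and_true, false_and, or_false]
          rw [ht2 v, if_neg h1.2]
          constructor
          · intro h; exact H.mem _ _ h
          · rintro ⟨h2, h3⟩
            have := h1.1
            rw [h2, h3] at this
            exact this
      · rw [Finset.disjoint_left]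
        intro v hv hv'
        exact (mem_sdiff.mp hv).2 (mem_filter.mp hv').1
    have hB : (W (true, false) \ C).card +
        (C.filter fun v => (κ₁' v).2 = true ∧ (κ₂ v).1 = false).card =
        (univ.filter fun v => (κ₁' v).2 = true ∧ o v = false).card := by
      rw [← Finset.card_union_of_disjoint]
      · congr 1
        ext v
        simp only [mem_union, mem_sdiff, mem_filter, mem_univ, true_and]
        by_cases hv : v ∈ C
        · simp [hv, hκ₂ v]
        · have h1 := hnotC v hv
          simp only [hv, not_false_iff, and_true, false_and, or_false]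
          rw [ht2 v, if_neg h1.2]
          constructor
          · intro h; exact H.mem _ _ h
          · rintro ⟨h2, h3⟩
            have := h1.1
            rw [h2, h3] at this
            exact this
      · rw [Finset.disjoint_left]
        intro v hv hv'
        exact (mem_sdiff.mp hv).2 (mem_filter.mp hv').1
    rw [hA, hB]
    have hC1 : (univ.filter fun v => (κ₁' v).2 = false ∧ o v = true).card +
        (univ.filter fun v => (κ₁' v).2 = true ∧ o v = true).card =
        (univ.filter fun v => o v = true).card := by
      rw [← Finset.card_union_of_disjoint]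
      · congr 1
        ext v
        simp only [mem_union, mem_filter, mem_univ, true_and]
        cases (κ₁' v).2 <;> simp
      · rw [Finset.disjoint_left]
        intro v hv hv'
        rw [mem_filter] at hv hv'
        have := hv.2.1.symm.trans hv'.2.1
        simp at this
    have hC2 : (univ.filter fun v => (κ₁' v).2 = true ∧ o v = false).card +
        (univ.filter fun v => (κ₁' v).2 = true ∧ o v = true).card =
        (univ.filter fun v => (κ₁' v).2 = true).card := by
      rw [← Finset.card_union_of_disjoint]
      · congr 1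
        ext v
        simp only [mem_union, mem_filter, mem_univ, true_and]
        cases (o v) <;> simp
      · rw [Finset.disjoint_left]
        intro v hv hv'
        rw [mem_filter] at hv hv'
        have := hv.2.2.symm.trans hv'.2.2
        simp at this
    have hC3 : (univ.filter fun v => (κ₁' v).2 = true).card + heads.card =
        (univ.filter fun v => i v = true).card := by
      rw [← Finset.card_union_of_disjoint]
      · congr 1
        ext v
        simp only [mem_union, mem_filter, mem_univ, true_and]
        rw [ht2 v]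
        by_cases hv : v ∈ heads
        · simp only [hv, if_true, or_true, true_iff]
          exact (hF.1 _ (hlv v hv)).2.2
        · simp [hv]
      · rw [Finset.disjoint_left]
        intro v hv hv'
        rw [mem_filter, ht2 v, if_pos hv'] at hv
        simp at hv
    have hC4 := dev_card_bool o true
    simp only [Bool.not_true] at hC4
    omega

/-- Complementing all bits. -/
theorem devH_compl {D : V → V → Prop} {W : Bool × Bool → Finset V} {δ ρ L : ℝ} {i o : V → Bool}
    (H : DevH D W δ ρ L i o) :
    DevH D (fun k => W (!k.1, !k.2)) δ ρ L (fun v => !(i v)) (fun v => !(o v)) where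
  sd := H.sd
  typ := {
    disj := fun k l hkl => H.typ.disj _ _ (fun h => hkl (by
      obtain ⟨h1, h2⟩ := Prod.mk.inj h
      exact Prod.ext (by simpa using h1) (by simpa using h2)))
    out := fun k l hkl w hw => H.typ.out (!k.1, !k.2) (!l.1, !l.2) (by simp [hkl]) w hw
    inn := fun k l hkl w hw => H.typ.inn (!k.1, !k.2) (!l.1, !l.2) (by simp [hkl]) w hw
    inB := fun b => by
      have := H.typ.inB (!b)
      simp only [Bool.not_true, Bool.not_false]
      linarith
    outB := fun b => by
      have := H.typ.outB (!b)
      simp only [Bool.not_true, Bool.not_false]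
      linarith }
  mem k v hv := by
    have := H.mem _ v hv
    simp only [this.1, this.2, Bool.not_not, and_self]
  inO v := by
    obtain ⟨k, hk, hO⟩ := H.inO v
    refine ⟨(!k.1, !k.2), by simp [hk], ?_⟩
    unfold Opt at hO ⊢
    simpa using hO
  outO v := by
    obtain ⟨k, hk, hO⟩ := H.outO v
    refine ⟨(!k.1, !k.2), by simp [hk], ?_⟩
    unfold Opt at hO ⊢
    simpa using hO
  ci b := by
    have := H.ci (!b)
    have h2 : (univ.filter fun v => (!(i v)) = b) = univ.filter fun v => i v = !b := by
      apply Finset.filter_congr; intro v _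
      cases b <;> cases (i v) <;> simp
    rw [h2]; exact this
  co b := by
    have := H.co (!b)
    have h2 : (univ.filter fun v => (!(o v)) = b) = univ.filter fun v => o v = !b := by
      apply Finset.filter_congr; intro v _
      cases b <;> cases (o v) <;> simp
    rw [h2]; exact this
  mi b hb v hv k hk := by
    have h2 : (univ.filter fun v => (!(i v)) = b) = univ.filter fun v => i v = !b := by
      apply Finset.filter_congr; intro v _
      cases b <;> cases (i v) <;> simp
    rw [h2] at hb
    exact H.mi (!b) hb v (by rw [← hv]; simp) (!k.1, !k.2) (by simp [hk])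
  mo b hb v hv k hk := by
    have h2 : (univ.filter fun v => (!(o v)) = b) = univ.filter fun v => o v = !b := by
      apply Finset.filter_congr; intro v _
      cases b <;> cases (o v) <;> simp
    rw [h2] at hb
    exact H.mo (!b) hb v (by rw [← hv]; simp) (!k.1, !k.2) (by simp [hk])

theorem devC_compl {D : V → V → Prop} {W : Bool × Bool → Finset V} {δ ρ : ℝ}
    (H : DevC D (fun k => W (!k.1, !k.2)) δ ρ) : DevC D W δ ρ := by
  obtain ⟨C, Li, Lo, k₁, k₂, lv, h1, h2, h3, h4, h5, h6, h7, h8, h9, h10, h11, h12⟩ := H
  refine ⟨C, Li, Lo, fun v => (!(k₁ v).1, !(k₁ v).2), fun v => (!(k₂ v).1, !(k₂ v).2), lv,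
    ?_, h2, h3, h4, h5, h6, h7, h8, h9, h10, h11, ?_⟩
  · intro v hv
    exact h1 v (fun k => hv _)
  · have e1 : (C.filter fun v => (!(k₁ v).2) = false ∧ (!(k₂ v).1) = true) =
        C.filter fun v => (k₁ v).2 = true ∧ (k₂ v).1 = false := by
      apply Finset.filter_congr; intro v _
      simp
    have e2 : (C.filter fun v => (!(k₁ v).2) = true ∧ (!(k₂ v).1) = false) =
        C.filter fun v => (k₁ v).2 = false ∧ (k₂ v).1 = true := by
      apply Finset.filter_congr; intro v _
      simp
    simp only [e1, e2]
    simp only [Bool.not_true, Bool.not_false] at h12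
    exact h12.symm

/-- Reversing all arcs, and exchanging and complementing the types. -/
theorem devH_rev {D : V → V → Prop} {W : Bool × Bool → Finset V} {δ ρ L : ℝ} {i o : V → Bool}
    (H : DevH D W δ ρ L i o) :
    DevH (rev D) (fun k => W (!k.2, !k.1)) δ ρ L (fun v => !(o v)) (fun v => !(i v)) where
  sd := dev_semi_rev H.sd
  typ := {
    disj := fun k l hkl => H.typ.disj _ _ (fun h => hkl (by
      obtain ⟨h1, h2⟩ := Prod.mk.inj h
      exact Prod.ext (by simpa using h2) (by simpa using h1)))
    out := fun k l hkl w hw => by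
      rw [dev_adjN_rev]
      exact H.typ.inn (!l.2, !l.1) (!k.2, !k.1) (by simp [hkl]) w hw
    inn := fun k l hkl w hw => by
      rw [dev_adjN_rev]
      exact H.typ.out (!l.2, !l.1) (!k.2, !k.1) (by simp [hkl]) w hw
    inB := fun b => by
      have := H.typ.outB (!b)
      simp only [Bool.not_true, Bool.not_false]
      linarith
    outB := fun b => by
      have := H.typ.inB (!b)
      simp only [Bool.not_true, Bool.not_false]
      linarith }
  mem k v hv := by
    have := H.mem _ v hv
    simp only [this.1, this.2, Bool.not_not, and_self]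
  inO v := by
    obtain ⟨k, hk, hO⟩ := H.outO v
    refine ⟨(!k.2, !k.1), by simp [hk], ?_⟩
    unfold Opt at hO ⊢
    rw [dev_adjN_rev]
    simpa using hO
  outO v := by
    obtain ⟨k, hk, hO⟩ := H.inO v
    refine ⟨(!k.2, !k.1), by simp [hk], ?_⟩
    unfold Opt at hO ⊢
    rw [dev_adjN_rev]
    simpa using hO
  ci b := by
    have := H.co (!b)
    have h2 : (univ.filter fun v => (!(o v)) = b) = univ.filter fun v => o v = !b := by
      apply Finset.filter_congr; intro v _
      cases b <;> cases (o v) <;> simp
    rw [h2]; exact this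
  co b := by
    have := H.ci (!b)
    have h2 : (univ.filter fun v => (!(i v)) = b) = univ.filter fun v => i v = !b := by
      apply Finset.filter_congr; intro v _
      cases b <;> cases (i v) <;> simp
    rw [h2]; exact this
  mi b hb v hv k hk := by
    have h2 : (univ.filter fun v => (!(o v)) = b) = univ.filter fun v => o v = !b := by
      apply Finset.filter_congr; intro v _
      cases b <;> cases (o v) <;> simp
    rw [h2] at hb
    rw [dev_adjN_rev]
    exact H.mo (!b) hb v (by rw [← hv]; simp) (!k.2, !k.1) (by simp [hk])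
  mo b hb v hv k hk := by
    have h2 : (univ.filter fun v => (!(i v)) = b) = univ.filter fun v => i v = !b := by
      apply Finset.filter_congr; intro v _
      cases b <;> cases (i v) <;> simp
    rw [h2] at hb
    rw [dev_adjN_rev]
    exact H.mi (!b) hb v (by rw [← hv]; simp) (!k.2, !k.1) (by simp [hk])

theorem devC_rev {D : V → V → Prop} {W : Bool × Bool → Finset V} {δ ρ : ℝ}
    (H : DevC (rev D) (fun k => W (!k.2, !k.1)) δ ρ) : DevC D W δ ρ := by
  obtain ⟨C, Li, Lo, k₁, k₂, lv, h1, h2, h3, h4, h5, h6, h7, h8, h9, h10, h11, h12⟩ := H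
  refine ⟨C, Lo, Li, fun v => (!(k₂ v).2, !(k₂ v).1), fun v => (!(k₁ v).2, !(k₁ v).1), lv,
    ?_, h2, h4, h3, h5.symm, ?_, ?_, ?_, ?_, ?_, ?_, ?_⟩
  · intro v hv
    exact h1 v (fun k => hv _)
  · intro v hv hv'
    have := h7 v hv hv'
    unfold Opt at this ⊢
    rw [dev_adjN_rev] at this
    exact this
  · intro v hv hv'
    have := h6 v hv hv'
    unfold Opt at this ⊢
    rw [dev_adjN_rev] at this
    exact this
  · exact h9
  · exact h8
  · intro v hv
    exact h10 v (by rwa [union_comm])
  · rw [union_comm]; exact h11
  · have e1 : (C.filter fun v => (!(k₂ v).1) = false ∧ (!(k₁ v).2) = true) =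
        C.filter fun v => (k₁ v).2 = false ∧ (k₂ v).1 = true := by
      apply Finset.filter_congr; intro v _
      simp [and_comm]
    have e2 : (C.filter fun v => (!(k₂ v).1) = true ∧ (!(k₁ v).2) = false) =
        C.filter fun v => (k₁ v).2 = true ∧ (k₂ v).1 = false := by
      apply Finset.filter_congr; intro v _
      simp [and_comm]
    simp only [e1, e2]
    simp only [Bool.not_true, Bool.not_false] at h12
    exact h12

theorem dev_pos {D : V → V → Prop} {W : Bool × Bool → Finset V} {δ ρ L : ℝ} {i o : V → Bool}
    (H : DevH D W δ ρ L i o) (hL : 1 ≤ L) (hρ0 : 0 < ρ) (hρ : ρ ≤ 1 / 100) (hδ0 : 0 ≤ δ)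
    (hδ : δ ≤ 1 / 10000) (hn : 0 < Fintype.card V)
    (he : Fintype.card V ≤
      (univ.filter fun v => i v = true).card + (univ.filter fun v => o v = false).card) :
    DevC D W δ ρ := by
  by_cases hPQ : (univ.filter fun v => o v = false).card ≤ (univ.filter fun v => i v = true).card
  · exact dev_core H hL hρ0 hρ hδ0 hδ hn he hPQ
  · apply devC_rev
    have e1 : (univ.filter fun v => (!(o v)) = true) = univ.filter fun v => o v = false := by
      apply Finset.filter_congr; intro v _; simp
    have e2 : (univ.filter fun v => (!(i v)) = false) = univ.filter fun v => i v = true := by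
      apply Finset.filter_congr; intro v _; simp
    refine dev_core (devH_rev H) hL hρ0 hρ hδ0 hδ hn ?_ ?_
    · rw [e1, e2]; omega
    · rw [e1, e2]; omega

theorem dev_all {D : V → V → Prop} {W : Bool × Bool → Finset V} {δ ρ L : ℝ} {i o : V → Bool}
    (H : DevH D W δ ρ L i o) (hL : 1 ≤ L) (hρ0 : 0 < ρ) (hρ : ρ ≤ 1 / 100) (hδ0 : 0 ≤ δ)
    (hδ : δ ≤ 1 / 10000) (hn : 0 < Fintype.card V) : DevC D W δ ρ := by
  by_cases he : Fintype.card V ≤
      (univ.filter fun v => i v = true).card + (univ.filter fun v => o v = false).card
  · exact dev_pos H hL hρ0 hρ hδ0 hδ hn he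
  · apply devC_compl
    have e1 : (univ.filter fun v => (!(i v)) = true) = univ.filter fun v => i v = false := by
      apply Finset.filter_congr; intro v _; simp
    have e2 : (univ.filter fun v => (!(o v)) = false) = univ.filter fun v => o v = true := by
      apply Finset.filter_congr; intro v _; simp
    refine dev_pos (devH_compl H) hL hρ0 hρ hδ0 hδ hn ?_
    rw [e1, e2]
    have h1 := dev_card_bool i true
    have h2 := dev_card_bool o true
    simp only [Bool.not_true] at h1 h2
    omega

end DEV

theorem x3_dev : StDev := by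
  intro ρ hρ0 hρ
  refine ⟨ρ / 100, 1, by positivity, ?_⟩
  intro V _ D W δ L hT hδ hS hL1 hLn
  have hn : 0 < Fintype.card V := by
    rcases Nat.eq_zero_or_pos (Fintype.card V) with h | h
    · rw [h] at hLn; simp at hLn; linarith
    · exact h
  have hn' : (0 : ℝ) < Fintype.card V := by exact_mod_cast hn
  have hδ0 : 0 < δ := by
    by_contra h
    push Not at h
    nlinarith
  have hδ1 : δ ≤ 1 / 10000 := by linarith
  obtain ⟨i, hi1, hi2, hi3, hi4⟩ := dev_types (ρ := ρ) hT hS (by linarith) hρ hδ0.le hδ hn
  obtain ⟨o, ho1, ho2, ho3, ho4⟩ := dev_types (ρ := ρ) (dev_typ_swap hT) (dev_semi_rev hS)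
    (by linarith) hρ hδ0.le hδ hn
  set W' : Bool × Bool → Finset V := fun k => (W k).filter fun v => i v = k.1 ∧ o v = k.2 with hW'
  have hsub : ∀ k, W' k ⊆ W k := fun k => filter_subset _ _
  have hdiff : ∀ k, ((W k \ W' k).card : ℝ) ≤ 2 * (δ * (Fintype.card V : ℝ)) := by
    intro k
    have h1 : W k \ W' k ⊆ (univ.filter fun v => ∃ k, v ∈ W k ∧ i v ≠ k.1) ∪
        (univ.filter fun v => ∃ k : Bool × Bool, v ∈ W (k.2, k.1) ∧ o v ≠ k.1) := by
      intro v hv
      rw [mem_sdiff] at hv
      by_cases hiv : i v = k.1
      · refine mem_union_right _ (mem_filter.mpr ⟨mem_univ _, (k.2, k.1), hv.1, ?_⟩)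
        intro hov
        exact hv.2 (mem_filter.mpr ⟨hv.1, hiv, hov⟩)
      · exact mem_union_left _ (mem_filter.mpr ⟨mem_univ _, k, hv.1, hiv⟩)
    have h2 := (Finset.card_le_card h1).trans (card_union_le _ _)
    have h3 : ((W k \ W' k).card : ℝ) ≤ (univ.filter fun v => ∃ k, v ∈ W k ∧ i v ≠ k.1).card +
        (univ.filter fun v => ∃ k : Bool × Bool, v ∈ W (k.2, k.1) ∧ o v ≠ k.1).card := by
      exact_mod_cast h2
    linarith
  have hcard : ∀ k, ((W k).card : ℝ) ≤ (W' k).card + 2 * (δ * (Fintype.card V : ℝ)) := by
    intro k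
    have h1 := Finset.card_sdiff_add_card_eq_card (hsub k)
    have h2 : ((W k \ W' k).card : ℝ) + (W' k).card = (W k).card := by exact_mod_cast h1
    have h3 := hdiff k
    linarith
  have hint : ∀ k (N : Finset V), ((W k ∩ N).card : ℝ) ≤
      (W' k ∩ N).card + 2 * (δ * (Fintype.card V : ℝ)) := by
    intro k N
    have h1 : W k ∩ N ⊆ (W' k ∩ N) ∪ (W k \ W' k) := by
      intro v hv
      rw [mem_inter] at hv
      by_cases h : v ∈ W' k
      · exact mem_union_left _ (mem_inter.mpr ⟨h, hv.2⟩)
      · exact mem_union_right _ (mem_sdiff.mpr ⟨hv.1, h⟩)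
    have h2 := (Finset.card_le_card h1).trans (card_union_le _ _)
    have h3 : ((W k ∩ N).card : ℝ) ≤ (W' k ∩ N).card + (W k \ W' k).card := by exact_mod_cast h2
    have h4 := hdiff k
    linarith
  have hδn : δ * (Fintype.card V : ℝ) ≤ ρ / 100 * (Fintype.card V : ℝ) :=
    mul_le_mul_of_nonneg_right hδ hn'.le
  have hT' : Typ D W' (10 * δ) := {
    disj := fun k l hkl => Finset.disjoint_of_subset_left (hsub k)
      (Finset.disjoint_of_subset_right (hsub l) (hT.disj k l hkl))
    out := fun k l hkl w hw => by
      have h1 := hT.out k l hkl w (hsub k hw)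
      have h2 : ((W' l \ adjN D true w).card : ℝ) ≤ (W l \ adjN D true w).card := by
        exact_mod_cast Finset.card_le_card (Finset.sdiff_subset_sdiff (hsub l) (subset_refl _))
      nlinarith
    inn := fun k l hkl w hw => by
      have h1 := hT.inn k l hkl w (hsub l hw)
      have h2 : ((W' k \ adjN D false w).card : ℝ) ≤ (W k \ adjN D false w).card := by
        exact_mod_cast Finset.card_le_card (Finset.sdiff_subset_sdiff (hsub k) (subset_refl _))
      nlinarith
    inB := fun b => by
      have h1 := hT.inB b
      have h2 := hcard (b, true)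
      have h3 := hcard (b, false)
      nlinarith
    outB := fun b => by
      have h1 := hT.outB b
      have h2 := hcard (true, b)
      have h3 := hcard (false, b)
      nlinarith }
  have H : DevH D W' δ ρ L i o := {
    sd := hS
    typ := hT'
    mem := fun k v hv => (mem_filter.mp hv).2
    inO := fun v => by
      obtain ⟨k, hk, hO⟩ := hi1 v
      refine ⟨k, hk, ?_⟩
      unfold Opt at hO ⊢
      have := hint k (adjN D false v)
      nlinarith
    outO := fun v => by
      obtain ⟨k, hk, hO⟩ := ho1 v
      refine ⟨(k.2, k.1), hk, ?_⟩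
      unfold Opt at hO ⊢
      rw [dev_adjN_rev] at hO
      have := hint (k.2, k.1) (adjN D true v)
      simp only [Bool.not_false] at hO
      nlinarith
    ci := hi3
    co := ho3
    mi := fun b hb v hv k hk => by
      have h1 := hi4 b hb v hv k hk
      unfold Opt at h1
      push Not at h1
      have h2 : ((W' k ∩ adjN D false v).card : ℝ) ≤ (W k ∩ adjN D false v).card := by
        exact_mod_cast Finset.card_le_card (Finset.inter_subset_inter_right (hsub k))
      linarith
    mo := fun b hb v hv k hk => by
      have h1 := ho4 b hb v hv (k.2, k.1) hk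
      unfold Opt at h1
      rw [dev_adjN_rev] at h1
      push Not at h1
      simp only [Bool.not_false] at h1
      have h2 : ((W' k ∩ adjN D true v).card : ℝ) ≤ (W k ∩ adjN D true v).card := by
        exact_mod_cast Finset.card_le_card (Finset.inter_subset_inter_right (hsub k))
      have h3 : W (k.1, k.2) = W k := rfl
      rw [h3] at h1
      linarith }
  obtain ⟨C, Li, Lo, k₁, k₂, lv, g1, g2, g3, g4, g5, g6, g7, g8, g9, g10, g11, g12⟩ :=
    dev_all H hL1 hρ0 hρ hδ0.le hδ1 hn
  refine ⟨W', hsub, hT', C, Li, Lo, k₁, k₂, lv, g1, g2, g3, g4, g5, g6, g7, g8, g9, g10, ?_, g12⟩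
  simpa using g11

end

end OT
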